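import Pool.Agent.N275.QD.Ana

set_option autoImplicit false

/-!
# The heat extension of a bounded function
-/

namespace Pool.Agent.N689.QD

open MeasureTheory Set Filter Topology Complex
open Pool.Agent.N275.QD (D2 Heat)
open scoped Real

/-- the Gaussian -/
noncomputable def gg (s : ℝ) (z : ℂ) : ℝ := Real.exp (-(‖z‖ ^ 2 / (4 * s))) / (4 * π * s)

/-- the heat extension -/
noncomputable def hh (f : ℂ → ℝ) (t : ℝ) (z : ℂ) : ℝ := ∫ w : ℂ, gg t (w - z) * f w

theorem gg_cont (s : ℝ) : Continuous (gg s) := by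
  unfold gg; fun_prop

theorem gg_pos {s : ℝ} (hs : 0 < s) (z : ℂ) : 0 < gg s z := by
  unfold gg; positivity

theorem nsq (z : ℂ) : ‖z‖ ^ 2 = z.re ^ 2 + z.im ^ 2 := by
  rw [← Complex.normSq_eq_norm_sq, Complex.normSq_apply]; ring

theorem int_exp {b : ℝ} (hb : 0 < b) : ∫ z : ℂ, Real.exp (-(‖z‖ ^ 2 / b)) = π * b := by
  have h := GaussianFourier.integral_rexp_neg_mul_sq_norm (V := ℂ) (b := b⁻¹) (by positivity)
  rw [Complex.finrank_real_complex] at h
  have e : (fun z : ℂ => Real.exp (-(‖z‖ ^ 2 / b))) = fun v : ℂ => Real.exp (-b⁻¹ * ‖v‖ ^ 2) := by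
    funext z; congr 1; field_simp
  rw [e, h]
  simp

theorem integrable_exp {b : ℝ} (hb : 0 < b) :
    Integrable (fun z : ℂ => Real.exp (-(‖z‖ ^ 2 / b))) := by
  by_contra h
  have := integral_undef h
  rw [int_exp hb] at this
  have : 0 < π * b := by positivity
  linarith

theorem integrable_exp_sub {b : ℝ} (hb : 0 < b) (z : ℂ) :
    Integrable (fun w : ℂ => Real.exp (-(‖w - z‖ ^ 2 / b))) :=
  (integrable_exp hb).comp_sub_right z

theorem int_gg {s : ℝ} (hs : 0 < s) : ∫ z : ℂ, gg s z = 1 := by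
  unfold gg
  rw [integral_div, int_exp (by positivity)]
  field_simp

theorem integrable_gg {s : ℝ} (hs : 0 < s) : Integrable (gg s) := by
  unfold gg
  exact (integrable_exp (by positivity)).div_const _

theorem integrable_gg_sub {s : ℝ} (hs : 0 < s) (z : ℂ) : Integrable (fun w => gg s (w - z)) :=
  (integrable_gg hs).comp_sub_right z

/-! ## Elementary bounds -/

/-- a quadratic factor costs a factor `2` in the exponent -/
theorem quad_exp {s r : ℝ} (hs : 0 < s) (A B : ℝ) (hA : 0 ≤ A) (hB : 0 ≤ B) (hr : 0 ≤ r) :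
    (A + B * r) * Real.exp (-(r / s)) ≤ (A + 2 * s * B) * Real.exp (-(r / (2 * s))) := by
  have h1 : Real.exp (-(r / s)) = Real.exp (-(r / (2 * s))) * Real.exp (-(r / (2 * s))) := by
    rw [← Real.exp_add]; congr 1; field_simp; ring
  have h2 : r / (2 * s) * Real.exp (-(r / (2 * s))) ≤ 1 := by
    rw [Real.exp_neg, ← div_eq_mul_inv, div_le_one (Real.exp_pos _)]
    linarith [Real.add_one_le_exp (r / (2 * s))]
  have h3 : Real.exp (-(r / (2 * s))) ≤ 1 := by
    rw [Real.exp_le_one_iff]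
    have : 0 ≤ r / (2 * s) := by positivity
    linarith
  have h4 : r * Real.exp (-(r / (2 * s))) ≤ 2 * s := by
    have e : r * Real.exp (-(r / (2 * s))) = 2 * s * (r / (2 * s) * Real.exp (-(r / (2 * s)))) := by
      field_simp
    rw [e]
    nlinarith [mul_pos (two_pos) hs]
  have h5 : (A + B * r) * Real.exp (-(r / (2 * s))) ≤ A + 2 * s * B := by
    have : (A + B * r) * Real.exp (-(r / (2 * s))) =
      A * Real.exp (-(r / (2 * s))) + B * (r * Real.exp (-(r / (2 * s)))) := by ring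
    rw [this]
    nlinarith
  rw [h1, ← mul_assoc]
  exact mul_le_mul_of_nonneg_right h5 (Real.exp_pos _).le

/-- a shift by at most `1` costs a factor `2` in the exponent -/
theorem shift_exp {s : ℝ} (hs : 0 < s) (w z z' : ℂ) (h : ‖z' - z‖ ≤ 1) :
    Real.exp (-(‖w - z'‖ ^ 2 / s)) ≤ Real.exp (1 / s) * Real.exp (-(‖w - z‖ ^ 2 / (2 * s))) := by
  rw [← Real.exp_add, Real.exp_le_exp]
  have h1 : ‖w - z‖ ≤ ‖w - z'‖ + ‖z' - z‖ := by
    have : w - z = (w - z') + (z' - z) := by ring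
    rw [this]; exact norm_add_le _ _
  have h2 : ‖w - z‖ ^ 2 ≤ 2 * ‖w - z'‖ ^ 2 + 2 := by
    have h3 : ‖w - z‖ ≤ ‖w - z'‖ + 1 := by linarith
    have h4 : ‖w - z‖ ^ 2 ≤ (‖w - z'‖ + 1) ^ 2 := by
      apply pow_le_pow_left₀ (norm_nonneg _) h3
    nlinarith [sq_nonneg (‖w - z'‖ - 1)]
  have h5 : ‖w - z‖ ^ 2 / (2 * s) ≤ ‖w - z'‖ ^ 2 / s + 1 / s := by
    rw [← add_div, div_le_div_iff₀ (by positivity) hs]
    nlinarith
  linarith

/-! ## The rule for differentiation under the integral -/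

theorem deriv_rule {F F' : ℝ → ℂ → ℝ} {s₀ ε : ℝ} {f : ℂ → ℝ} {B C b : ℝ} {z : ℂ} (hε : 0 < ε)
    (hb : 0 < b)
    (hf : Measurable f) (hB : ∀ w, |f w| ≤ B)
    (hFm : ∀ s, Measurable (F s)) (hFm' : Measurable (F' s₀)) (hC : 0 ≤ C)
    (h0 : ∀ w, |F s₀ w| ≤ C * Real.exp (-(‖w - z‖ ^ 2 / b)))
    (h1 : ∀ s, |s - s₀| < ε → ∀ w, |F' s w| ≤ C * Real.exp (-(‖w - z‖ ^ 2 / b)))
    (h2 : ∀ s, |s - s₀| < ε → ∀ w, HasDerivAt (fun s => F s w) (F' s w) s) :
    Integrable (fun w => F' s₀ w * f w) ∧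
    HasDerivAt (fun s => ∫ w, F s w * f w) (∫ w, F' s₀ w * f w) s₀ := by
  have hB0 : 0 ≤ B := (abs_nonneg _).trans (hB 0)
  have hint : Integrable (fun w => C * Real.exp (-(‖w - z‖ ^ 2 / b)) * B) :=
    ((integrable_exp_sub hb z).const_mul C).mul_const B
  refine (hasDerivAt_integral_of_dominated_loc_of_deriv_le (μ := volume)
    (F := fun s w => F s w * f w) (F' := fun s w => F' s w * f w)
    (bound := fun w => C * Real.exp (-(‖w - z‖ ^ 2 / b)) * B) (s := Metric.ball s₀ ε)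
    (Metric.ball_mem_nhds s₀ hε) ?_ ?_ ?_ ?_ hint ?_)
  · exact Eventually.of_forall fun s => ((hFm s).mul hf).aestronglyMeasurable
  · refine hint.mono' ((hFm s₀).mul hf).aestronglyMeasurable (Eventually.of_forall fun w => ?_)
    rw [Real.norm_eq_abs, abs_mul]
    exact mul_le_mul (h0 w) (hB w) (abs_nonneg _) (by positivity)
  · exact (hFm'.mul hf).aestronglyMeasurable
  · refine Eventually.of_forall fun w s hs => ?_
    rw [Metric.mem_ball, Real.dist_eq] at hs
    rw [Real.norm_eq_abs, abs_mul]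
    exact mul_le_mul (h1 s hs w) (hB w) (abs_nonneg _) (by positivity)
  · refine Eventually.of_forall fun w s hs => ?_
    rw [Metric.mem_ball, Real.dist_eq] at hs
    exact (h2 s hs w).mul_const (f w)

/-! ## Derivatives in space -/

/-- the component in the direction `e` -/
noncomputable def P (z e : ℂ) (s : ℝ) (w : ℂ) : ℝ :=
  e.re * ((w - z).re - s * e.re) + e.im * ((w - z).im - s * e.im)

theorem nsq_sub (z e : ℂ) (s : ℝ) (w : ℂ) : ‖w - (z + (s : ℂ) * e)‖ ^ 2 =
    ((w - z).re - s * e.re) ^ 2 + ((w - z).im - s * e.im) ^ 2 := by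
  rw [nsq]; simp; ring

theorem P_sq_le (z e : ℂ) (he : e.re ^ 2 + e.im ^ 2 = 1) (s : ℝ) (w : ℂ) :
    P z e s w ^ 2 ≤ ‖w - (z + (s : ℂ) * e)‖ ^ 2 := by
  rw [nsq_sub, P]
  set a := (w - z).re - s * e.re
  set b := (w - z).im - s * e.im
  have : a ^ 2 + b ^ 2 = (e.re ^ 2 + e.im ^ 2) * (a ^ 2 + b ^ 2) := by rw [he]; ring
  rw [this]
  nlinarith [sq_nonneg (e.re * b - e.im * a)]

theorem P_abs_le (z e : ℂ) (he : e.re ^ 2 + e.im ^ 2 = 1) (s : ℝ) (w : ℂ) :
    |P z e s w| ≤ 1 + ‖w - (z + (s : ℂ) * e)‖ ^ 2 := by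
  have h := P_sq_le z e he s w
  rw [← sq_abs] at h
  nlinarith [sq_nonneg (|P z e s w| - 1), abs_nonneg (P z e s w)]

theorem P_deriv (z e : ℂ) (he : e.re ^ 2 + e.im ^ 2 = 1) (s : ℝ) (w : ℂ) :
    HasDerivAt (fun s => P z e s w) (-1) s := by
  unfold P
  have h1 : HasDerivAt (fun s : ℝ => (w - z).re - s * e.re) (-e.re) s := by
    simpa using ((hasDerivAt_id s).mul_const e.re).const_sub (w - z).re
  have h2 : HasDerivAt (fun s : ℝ => (w - z).im - s * e.im) (-e.im) s := by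
    simpa using ((hasDerivAt_id s).mul_const e.im).const_sub (w - z).im
  refine ((h1.const_mul e.re).add (h2.const_mul e.im)).congr_deriv ?_
  linarith

theorem N_deriv (z e : ℂ) (s : ℝ) (w : ℂ) :
    HasDerivAt (fun s : ℝ => ‖w - (z + (s : ℂ) * e)‖ ^ 2) (-(2 * P z e s w)) s := by
  simp_rw [nsq_sub]
  have h1 : HasDerivAt (fun s : ℝ => (w - z).re - s * e.re) (-e.re) s := by
    simpa using ((hasDerivAt_id s).mul_const e.re).const_sub (w - z).re
  have h2 : HasDerivAt (fun s : ℝ => (w - z).im - s * e.im) (-e.im) s := by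
    simpa using ((hasDerivAt_id s).mul_const e.im).const_sub (w - z).im
  refine ((h1.fun_pow 2).add (h2.fun_pow 2)).congr_deriv ?_
  unfold P
  push_cast
  ring

theorem E_deriv {t : ℝ} (ht : 0 < t) (z e : ℂ) (s : ℝ) (w : ℂ) :
    HasDerivAt (fun s : ℝ => gg t (w - (z + (s : ℂ) * e)))
      (P z e s w / (2 * t) * gg t (w - (z + (s : ℂ) * e))) s := by
  unfold gg
  have h := (((N_deriv z e s w).div_const (4 * t)).neg.exp).div_const (4 * π * t)
  refine h.congr_deriv ?_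
  simp only [Pi.neg_apply]
  field_simp
  ring

theorem E_deriv2 {t : ℝ} (ht : 0 < t) (z e : ℂ) (he : e.re ^ 2 + e.im ^ 2 = 1) (s : ℝ) (w : ℂ) :
    HasDerivAt (fun s : ℝ => P z e s w / (2 * t) * gg t (w - (z + (s : ℂ) * e)))
      ((P z e s w ^ 2 / (4 * t ^ 2) - 1 / (2 * t)) * gg t (w - (z + (s : ℂ) * e))) s := by
  have h := ((P_deriv z e he s w).div_const (2 * t)).mul (E_deriv ht z e s w)
  refine h.congr_deriv ?_
  field_simp
  ring

theorem P_meas (z e : ℂ) (s : ℝ) : Measurable (P z e s) := by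
  unfold P
  apply Continuous.measurable
  fun_prop

theorem gg_meas (t : ℝ) (z : ℂ) : Measurable (fun w => gg t (w - z)) :=
  ((gg_cont t).comp (continuous_id.sub continuous_const)).measurable

/-- the basic bound -/
theorem gbd {t : ℝ} (ht : 0 < t) {A B : ℝ} (hA : 0 ≤ A) (hB : 0 ≤ B) (w z z' : ℂ)
    (h : ‖z' - z‖ ≤ 1) {q : ℝ} (hq : |q| ≤ A + B * ‖w - z'‖ ^ 2) :
    |q * gg t (w - z')| ≤ (A + 2 * (4 * t) * B) * Real.exp (1 / (2 * (4 * t))) / (4 * π * t) *
      Real.exp (-(‖w - z‖ ^ 2 / (2 * (2 * (4 * t))))) := by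
  rw [abs_mul, abs_of_pos (gg_pos ht _)]
  have h1 := quad_exp (s := 4 * t) (r := ‖w - z'‖ ^ 2) (by positivity) A B hA hB (by positivity)
  have h2 := shift_exp (s := 2 * (4 * t)) (by positivity) w z z' h
  have h3 : |q| * Real.exp (-(‖w - z'‖ ^ 2 / (4 * t))) ≤
      (A + 2 * (4 * t) * B) * (Real.exp (1 / (2 * (4 * t))) *
        Real.exp (-(‖w - z‖ ^ 2 / (2 * (2 * (4 * t)))))) :=
    calc _ ≤ (A + B * ‖w - z'‖ ^ 2) * Real.exp (-(‖w - z'‖ ^ 2 / (4 * t))) :=
          mul_le_mul_of_nonneg_right hq (Real.exp_pos _).le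
      _ ≤ _ := h1
      _ ≤ _ := mul_le_mul_of_nonneg_left h2 (by positivity)
  unfold gg
  rw [← mul_div_assoc]
  calc _ ≤ (A + 2 * (4 * t) * B) * (Real.exp (1 / (2 * (4 * t))) *
        Real.exp (-(‖w - z‖ ^ 2 / (2 * (2 * (4 * t)))))) / (4 * π * t) :=
          div_le_div_of_nonneg_right h3 (by positivity)
    _ = _ := by ring

/-- the constant of the bound -/
noncomputable def cst (t A B : ℝ) : ℝ :=
  (A + 2 * (4 * t) * B) * Real.exp (1 / (2 * (4 * t))) / (4 * π * t)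

theorem cst_nonneg {t : ℝ} (ht : 0 < t) {A B : ℝ} (hA : 0 ≤ A) (hB : 0 ≤ B) : 0 ≤ cst t A B := by
  unfold cst; positivity

theorem shift_norm {e : ℂ} (he : e.re ^ 2 + e.im ^ 2 = 1) (z : ℂ) {s : ℝ} (hs : |s| ≤ 1) :
    ‖z + (s : ℂ) * e - z‖ ≤ 1 := by
  have h1 : z + (s : ℂ) * e - z = (s : ℂ) * e := by ring
  have h2 : ‖e‖ = 1 := by
    have := nsq e
    rw [he] at this
    nlinarith [norm_nonneg e]
  rw [h1, norm_mul, h2, mul_one, Complex.norm_real]
  exact hs

/-- second derivative in the direction `e` -/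
theorem space {f : ℂ → ℝ} {B : ℝ} (hf : Measurable f) (hB : ∀ w, |f w| ≤ B) {t : ℝ} (ht : 0 < t)
    (z e : ℂ) (he : e.re ^ 2 + e.im ^ 2 = 1) :
    Integrable (fun w => (P z e 0 w ^ 2 / (4 * t ^ 2) - 1 / (2 * t)) * gg t (w - z) * f w) ∧
    D2 (fun s : ℝ => hh f t (z + (s : ℂ) * e))
      (∫ w, (P z e 0 w ^ 2 / (4 * t ^ 2) - 1 / (2 * t)) * gg t (w - z) * f w) := by
  have hb0 : ∀ s : ℝ, |s| ≤ 1 → ∀ w, |gg t (w - (z + (s : ℂ) * e))| ≤ cst t 1 0 *
      Real.exp (-(‖w - z‖ ^ 2 / (2 * (2 * (4 * t))))) := by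
    intro s hs w
    have := gbd ht (A := 1) (B := 0) (q := 1) zero_le_one le_rfl w z (z + (s : ℂ) * e)
      (shift_norm he z hs) (by simp)
    rwa [one_mul] at this
  have hb1 : ∀ s : ℝ, |s| ≤ 1 → ∀ w, |P z e s w / (2 * t) * gg t (w - (z + (s : ℂ) * e))| ≤
      cst t (1 / (2 * t)) (1 / (2 * t)) *
      Real.exp (-(‖w - z‖ ^ 2 / (2 * (2 * (4 * t))))) := by
    intro s hs w
    refine gbd ht (by positivity) (by positivity) w z (z + (s : ℂ) * e) (shift_norm he z hs) ?_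
    rw [abs_div, abs_of_pos (by positivity : 0 < 2 * t), div_le_iff₀ (by positivity)]
    have := P_abs_le z e he s w
    field_simp
    linarith
  have hb2 : ∀ s : ℝ, |s| ≤ 1 → ∀ w, |(P z e s w ^ 2 / (4 * t ^ 2) - 1 / (2 * t)) *
      gg t (w - (z + (s : ℂ) * e))| ≤
      cst t (1 / (2 * t)) (1 / (4 * t ^ 2)) *
      Real.exp (-(‖w - z‖ ^ 2 / (2 * (2 * (4 * t))))) := by
    intro s hs w
    refine gbd ht (by positivity) (by positivity) w z (z + (s : ℂ) * e) (shift_norm he z hs) ?_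
    have h1 := P_sq_le z e he s w
    have h2 : 0 ≤ 1 / (2 * t) := by positivity
    have h3 : P z e s w ^ 2 / (4 * t ^ 2) ≤ 1 / (4 * t ^ 2) * ‖w - (z + (s : ℂ) * e)‖ ^ 2 := by
      rw [div_le_iff₀ (by positivity)]
      field_simp
      linarith
    have h4 : 0 ≤ P z e s w ^ 2 / (4 * t ^ 2) := by positivity
    rw [abs_le]
    constructor <;> linarith
  have key0 : ∀ x : ℝ, |x| < 1 / 2 → HasDerivAt (fun s : ℝ => hh f t (z + (s : ℂ) * e))
      (∫ w, P z e x w / (2 * t) * gg t (w - (z + (x : ℂ) * e)) * f w) x := by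
    intro x hx
    refine (deriv_rule (F := fun s w => gg t (w - (z + (s : ℂ) * e)))
      (F' := fun s w => P z e s w / (2 * t) * gg t (w - (z + (s : ℂ) * e)))
      (ε := 1 / 2) (C := max (cst t 1 0) (cst t (1 / (2 * t)) (1 / (2 * t))))
      (b := 2 * (2 * (4 * t))) (z := z) (by norm_num) (by positivity) hf hB
      (fun s => gg_meas t _) (((P_meas z e x).div_const _).mul (gg_meas t _))
      (le_max_of_le_left (cst_nonneg ht zero_le_one le_rfl)) ?_ ?_ ?_).2
    · intro w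
      exact (hb0 x (by linarith) w).trans
        (mul_le_mul_of_nonneg_right (le_max_left _ _) (Real.exp_pos _).le)
    · intro s hs w
      have : |s| ≤ 1 := by
        have := abs_sub_abs_le_abs_sub s x
        linarith
      exact (hb1 s this w).trans
        (mul_le_mul_of_nonneg_right (le_max_right _ _) (Real.exp_pos _).le)
    · intro s _ w
      exact E_deriv ht z e s w
  have key1 := deriv_rule (F := fun s w => P z e s w / (2 * t) * gg t (w - (z + (s : ℂ) * e)))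
      (F' := fun s w => (P z e s w ^ 2 / (4 * t ^ 2) - 1 / (2 * t)) *
        gg t (w - (z + (s : ℂ) * e)))
      (s₀ := 0) (ε := 1) (C := max (cst t (1 / (2 * t)) (1 / (2 * t)))
        (cst t (1 / (2 * t)) (1 / (4 * t ^ 2))))
      (b := 2 * (2 * (4 * t))) (z := z) (by norm_num) (by positivity) hf hB
      (fun s => ((P_meas z e s).div_const _).mul (gg_meas t _))
      (((((P_meas z e 0).pow_const 2).div_const _).sub_const _).mul (gg_meas t _))
      (le_max_of_le_left (cst_nonneg ht (by positivity) (by positivity)))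
      (fun w => (hb1 0 (by simp) w).trans
        (mul_le_mul_of_nonneg_right (le_max_left _ _) (Real.exp_pos _).le))
      (fun s hs w => (hb2 s (by rw [sub_zero] at hs; exact hs.le) w).trans
        (mul_le_mul_of_nonneg_right (le_max_right _ _) (Real.exp_pos _).le))
      (fun s _ w => E_deriv2 ht z e he s w)
  simp only [Complex.ofReal_zero, zero_mul, add_zero] at key1
  refine ⟨key1.1, fun x => ∫ w, P z e x w / (2 * t) * gg t (w - (z + (x : ℂ) * e)) * f w, ?_,
    key1.2⟩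
  have : ∀ᶠ x : ℝ in 𝓝 0, |x| < 1 / 2 := by
    have := Metric.ball_mem_nhds (0 : ℝ) (by norm_num : (0 : ℝ) < 1 / 2)
    filter_upwards [this] with x hx
    rwa [Metric.mem_ball, Real.dist_eq, sub_zero] at hx
  filter_upwards [this] with x hx
  exact key0 x hx

/-! ## The derivative in time -/

theorem T_deriv {t : ℝ} (ht : 0 < t) (y : ℂ) :
    HasDerivAt (fun τ : ℝ => gg τ y) ((‖y‖ ^ 2 / (4 * t ^ 2) - 1 / t) * gg t y) t := by
  unfold gg
  have h1 : HasDerivAt (fun τ : ℝ => 4 * τ) 4 t := by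
    simpa using (hasDerivAt_id t).const_mul (4 : ℝ)
  have h2 : HasDerivAt (fun τ : ℝ => 4 * π * τ) (4 * π) t := by
    simpa using (hasDerivAt_id t).const_mul (4 * π)
  have h3 := (((hasDerivAt_const t (‖y‖ ^ 2)).div h1 (by positivity)).neg.exp).div h2
    (by positivity)
  refine h3.congr_deriv ?_
  simp only [Pi.neg_apply, Pi.div_apply]
  field_simp
  ring

theorem tbd {t τ : ℝ} (ht : 0 < t) (h : |τ - t| < t / 2) (y : ℂ) :
    gg τ y ≤ Real.exp (-(‖y‖ ^ 2 / (6 * t))) / (2 * π * t) := by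
  rw [abs_lt] at h
  have h0 : 0 < τ := by linarith
  unfold gg
  have h1 : Real.exp (-(‖y‖ ^ 2 / (4 * τ))) ≤ Real.exp (-(‖y‖ ^ 2 / (6 * t))) := by
    rw [Real.exp_le_exp, neg_le_neg_iff]
    apply div_le_div_of_nonneg_left (by positivity) (by positivity)
    linarith
  have h2 : 2 * π * t ≤ 4 * π * τ := by nlinarith [Real.pi_pos]
  exact div_le_div₀ (Real.exp_pos _).le h1 (by positivity) h2

theorem tbd2 {t τ : ℝ} (ht : 0 < t) (h : |τ - t| < t / 2) {A B : ℝ} (hA : 0 ≤ A) (hB : 0 ≤ B)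
    (y : ℂ) {q : ℝ} (hq : |q| ≤ A + B * ‖y‖ ^ 2) :
    |q * gg τ y| ≤ (A + 2 * (6 * t) * B) / (2 * π * t) *
      Real.exp (-(‖y‖ ^ 2 / (2 * (6 * t)))) := by
  have h0 : 0 < τ := by rw [abs_lt] at h; linarith
  rw [abs_mul, abs_of_pos (gg_pos h0 _)]
  have h1 := quad_exp (s := 6 * t) (r := ‖y‖ ^ 2) (by positivity) A B hA hB (by positivity)
  calc _ ≤ (A + B * ‖y‖ ^ 2) * (Real.exp (-(‖y‖ ^ 2 / (6 * t))) / (2 * π * t)) :=
        mul_le_mul hq (tbd ht h y) (gg_pos h0 _).le (by positivity)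
    _ = (A + B * ‖y‖ ^ 2) * Real.exp (-(‖y‖ ^ 2 / (6 * t))) / (2 * π * t) := by ring
    _ ≤ (A + 2 * (6 * t) * B) * Real.exp (-(‖y‖ ^ 2 / (2 * (6 * t)))) / (2 * π * t) :=
        div_le_div_of_nonneg_right h1 (by positivity)
    _ = _ := by ring

theorem time {f : ℂ → ℝ} {B : ℝ} (hf : Measurable f) (hB : ∀ w, |f w| ≤ B) {t : ℝ} (ht : 0 < t)
    (z : ℂ) : HasDerivAt (fun τ : ℝ => hh f τ z)
      (∫ w, (‖w - z‖ ^ 2 / (4 * t ^ 2) - 1 / t) * gg t (w - z) * f w) t := by
  refine (deriv_rule (F := fun s w => gg s (w - z))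
      (F' := fun s w => (‖w - z‖ ^ 2 / (4 * s ^ 2) - 1 / s) * gg s (w - z))
      (ε := t / 2) (C := max ((1 + 2 * (6 * t) * 0) / (2 * π * t))
        ((2 / t + 2 * (6 * t) * (1 / t ^ 2)) / (2 * π * t)))
      (b := 2 * (6 * t)) (z := z) (by positivity) (by positivity) hf hB
      (fun s => gg_meas s _) ?_
      (le_max_of_le_left (by positivity)) ?_ ?_ ?_).2
  · refine Measurable.mul ?_ (gg_meas t _)
    apply Continuous.measurable
    fun_prop
  · intro w
    have := tbd2 ht (τ := t) (by simpa using ht) (A := 1) (B := 0) (q := 1) zero_le_one le_rfl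
      (w - z) (by simp)
    rw [one_mul] at this
    exact this.trans (mul_le_mul_of_nonneg_right (le_max_left _ _) (Real.exp_pos _).le)
  · intro s hs w
    refine (tbd2 ht hs (A := 2 / t) (B := 1 / t ^ 2) (by positivity) (by positivity)
      (w - z) ?_).trans (mul_le_mul_of_nonneg_right (le_max_right _ _) (Real.exp_pos _).le)
    rw [abs_lt] at hs
    have h0 : 0 < s := by linarith
    have h1 : ‖w - z‖ ^ 2 / (4 * s ^ 2) ≤ 1 / t ^ 2 * ‖w - z‖ ^ 2 := by
      rw [div_eq_mul_one_div, mul_comm]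
      apply mul_le_mul_of_nonneg_right _ (by positivity)
      apply one_div_le_one_div_of_le (by positivity)
      nlinarith
    have h2 : 1 / s ≤ 2 / t := by
      rw [div_le_div_iff₀ h0 ht]
      linarith
    have h3 : 0 < 1 / s := by positivity
    have h4 : 0 ≤ ‖w - z‖ ^ 2 / (4 * s ^ 2) := by positivity
    have h5 : 0 < 2 / t := by positivity
    rw [abs_le]
    constructor <;> linarith
  · intro s hs w
    rw [abs_lt] at hs
    exact T_deriv (by linarith) (w - z)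

theorem heat {f : ℂ → ℝ} {B : ℝ} (hf : Measurable f) (hB : ∀ w, |f w| ≤ B) {t : ℝ} (ht : 0 < t)
    (z : ℂ) : Heat (hh f) t z := by
  obtain ⟨i1, d1⟩ := space hf hB ht z 1 (by simp)
  obtain ⟨i2, d2⟩ := space hf hB ht z I (by simp)
  simp only [mul_one] at d1
  refine ⟨_, _, d1, d2, ?_⟩
  · rw [← integral_add i1 i2]
    refine (time hf hB ht z).congr_deriv ?_
    refine integral_congr_ae (Eventually.of_forall fun w => ?_)
    have : ‖w - z‖ ^ 2 = P z 1 0 w ^ 2 + P z I 0 w ^ 2 := by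
      rw [nsq, P, P]; simp
    simp only
    rw [this]
    field_simp
    ring

/-! ## The maximum principle and continuity -/

theorem bound {f : ℂ → ℝ} {B : ℝ} (hB : ∀ w, |f w| ≤ B) {t : ℝ} (ht : 0 < t)
    (z : ℂ) : |hh f t z| ≤ B := by
  have h1 : ‖∫ w, gg t (w - z) * f w‖ ≤ ∫ w, gg t (w - z) * B := by
    refine norm_integral_le_of_norm_le ((integrable_gg_sub ht z).mul_const B)
      (Eventually.of_forall fun w => ?_)
    rw [Real.norm_eq_abs, abs_mul, abs_of_pos (gg_pos ht _)]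
    exact mul_le_mul_of_nonneg_left (hB w) (gg_pos ht _).le
  rw [integral_mul_const, integral_sub_right_eq_self (gg t) z, int_gg ht, one_mul] at h1
  exact h1

theorem cont {f : ℂ → ℝ} {B : ℝ} (hf : Measurable f) (hB : ∀ w, |f w| ≤ B) :
    ContinuousOn (fun q : ℝ × ℂ => hh f q.1 q.2) (Ioi 0 ×ˢ univ) := by
  rintro ⟨t, z⟩ ⟨ht, -⟩
  simp only [mem_Ioi] at ht
  apply ContinuousAt.continuousWithinAt
  have hB0 : 0 ≤ B := (abs_nonneg _).trans (hB 0)
  refine continuousAt_of_dominated (F := fun (q : ℝ × ℂ) w => gg q.1 (w - q.2) * f w)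
    (bound := fun w => Real.exp (1 / (6 * t)) * Real.exp (-(‖w - z‖ ^ 2 / (2 * (6 * t)))) /
      (2 * π * t) * B) ?_ ?_ ?_ ?_
  · exact Eventually.of_forall fun q => ((gg_meas q.1 q.2).mul hf).aestronglyMeasurable
  · have h1 : ∀ᶠ q : ℝ × ℂ in 𝓝 (t, z), |q.1 - t| < t / 2 ∧ ‖q.2 - z‖ ≤ 1 := by
      have e1 : ∀ᶠ τ in 𝓝 t, |τ - t| < t / 2 := by
        have := Metric.ball_mem_nhds t (by positivity : (0 : ℝ) < t / 2)
        filter_upwards [this] with x hx
        rwa [Metric.mem_ball, Real.dist_eq] at hx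
      have e2 : ∀ᶠ z' in 𝓝 z, ‖z' - z‖ ≤ 1 := by
        have := Metric.ball_mem_nhds z (by positivity : (0 : ℝ) < 1)
        filter_upwards [this] with x hx
        rw [Metric.mem_ball, dist_eq_norm] at hx
        exact hx.le
      exact e1.prod_nhds e2
    filter_upwards [h1] with q hq
    refine Eventually.of_forall fun w => ?_
    have h0 : 0 < q.1 := by have := abs_lt.1 hq.1; linarith
    rw [Real.norm_eq_abs, abs_mul, abs_of_pos (gg_pos h0 _)]
    refine mul_le_mul ((tbd ht hq.1 _).trans ?_) (hB w) (abs_nonneg _) (by positivity)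
    exact div_le_div_of_nonneg_right (shift_exp (by positivity) w z q.2 hq.2) (by positivity)
  · exact (((integrable_exp_sub (by positivity) z).const_mul _).div_const _).mul_const B
  · refine Eventually.of_forall fun w => ?_
    apply ContinuousAt.mul _ continuousAt_const
    unfold gg
    have : (4 * π * t) ≠ 0 := by positivity
    have h4 : (4 * t) ≠ 0 := by positivity
    fun_prop (disch := assumption)

/-! ## Initial values -/

/-- the same in normalised coordinates -/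
noncomputable def kk (f : ℂ → ℝ) (t : ℝ) (z : ℂ) : ℝ := ∫ u : ℂ, gg 1 u * f (z + (√t : ℂ) * u)

theorem hh_eq {f : ℂ → ℝ} {t : ℝ} (ht : 0 < t) (z : ℂ) : hh f t z = kk f t z := by
  unfold hh kk
  have h1 : ∫ w : ℂ, gg t (w - z) * f w = ∫ w : ℂ, gg t w * f (z + w) := by
    rw [← integral_add_right_eq_self (fun w => gg t (w - z) * f w) z]
    simp [add_comm]
  have hs : 0 < √t := Real.sqrt_pos.2 ht
  have h2 := Measure.integral_comp_smul (volume : Measure ℂ) (fun w : ℂ => gg t w * f (z + w)) (√t)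
  rw [Complex.finrank_real_complex, Real.sq_sqrt ht.le, abs_of_pos (by positivity),
    smul_eq_mul] at h2
  have h3 : ∫ w : ℂ, gg t w * f (z + w) = t * ∫ x : ℂ, gg t (√t • x) * f (z + √t • x) := by
    rw [h2]; field_simp
  rw [h1, h3, ← integral_const_mul]
  refine integral_congr_ae (Eventually.of_forall fun u => ?_)
  simp only [Complex.real_smul]
  rw [← mul_assoc]
  congr 1
  unfold gg
  rw [norm_mul, mul_pow, Complex.norm_real, Real.norm_eq_abs, sq_abs, Real.sq_sqrt ht.le]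
  field_simp

theorem kk_zero (f : ℂ → ℝ) (z : ℂ) : kk f 0 z = f z := by
  unfold kk
  simp only [Real.sqrt_zero, Complex.ofReal_zero, zero_mul, add_zero]
  rw [integral_mul_const, int_gg one_pos, one_mul]

theorem kk_cont {f : ℂ → ℝ} {B : ℝ} (hf : Continuous f) (hB : ∀ w, |f w| ≤ B) :
    Continuous (fun q : ℝ × ℂ => kk f q.1 q.2) := by
  refine continuous_of_dominated (F := fun (q : ℝ × ℂ) u => gg 1 u * f (q.2 + (√q.1 : ℂ) * u))
    (bound := fun u => gg 1 u * B) ?_ ?_ ((integrable_gg one_pos).mul_const B) ?_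
  · intro q
    apply Continuous.aestronglyMeasurable
    exact (gg_cont 1).mul (hf.comp (by fun_prop))
  · intro q
    refine Eventually.of_forall fun w => ?_
    rw [Real.norm_eq_abs, abs_mul, abs_of_pos (gg_pos one_pos _)]
    exact mul_le_mul_of_nonneg_left (hB _) (gg_pos one_pos _).le
  · refine Eventually.of_forall fun u => ?_
    exact continuous_const.mul (hf.comp (by fun_prop))

theorem ext_cont {f : ℂ → ℝ} {B : ℝ} (hf : Continuous f) (hB : ∀ w, |f w| ≤ B) :
    ContinuousOn (fun q : ℝ × ℂ => if 0 < q.1 then hh f q.1 q.2 else f q.2) (Ici 0 ×ˢ univ) := by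
  refine (kk_cont hf hB).continuousOn.congr ?_
  rintro ⟨t, z⟩ ⟨ht, -⟩
  simp only [mem_Ici] at ht
  rcases ht.eq_or_lt with h | h
  · subst h
    simp [kk_zero]
  · simp only [h, if_true]
    exact hh_eq h z

theorem kk_decay {f : ℂ → ℝ} {B : ℝ} (hf : Continuous f) (hB : ∀ w, |f w| ≤ B)
    (h0 : Tendsto f (cocompact ℂ) (𝓝 0)) (T : ℝ) :
    Tendsto (fun q : ℝ × ℂ => kk f q.1 q.2) (𝓟 (Icc 0 T) ×ˢ Bornology.cobounded ℂ) (𝓝 0) := by
  have hcg : (Bornology.cobounded ℂ).IsCountablyGenerated := by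
    rw [← comap_norm_atTop]; infer_instance
  suffices hs : Tendsto (fun q : ℝ × ℂ => kk f q.1 q.2)
      (𝓟 (Icc 0 T) ×ˢ Bornology.cobounded ℂ) (𝓝 (∫ u : ℂ, gg 1 u * 0)) by simpa using hs
  refine tendsto_integral_filter_of_dominated_convergence
    (F := fun (q : ℝ × ℂ) u => gg 1 u * f (q.2 + (√q.1 : ℂ) * u))
    (bound := fun u => gg 1 u * B) ?_ ?_ ((integrable_gg one_pos).mul_const B) ?_
  · refine Eventually.of_forall fun q => ?_
    apply Continuous.aestronglyMeasurable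
    exact (gg_cont 1).mul (hf.comp (by fun_prop))
  · refine Eventually.of_forall fun q => ?_
    refine Eventually.of_forall fun w => ?_
    rw [Real.norm_eq_abs, abs_mul, abs_of_pos (gg_pos one_pos _)]
    exact mul_le_mul_of_nonneg_left (hB _) (gg_pos one_pos _).le
  · refine Eventually.of_forall fun u => ?_
    refine Tendsto.const_mul _ (h0.comp ?_)
    rw [← Metric.cobounded_eq_cocompact, ← tendsto_norm_atTop_iff_cobounded]
    have h2 : Tendsto (fun q : ℝ × ℂ => ‖q.2‖ - √T * ‖u‖)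
        (𝓟 (Icc 0 T) ×ˢ Bornology.cobounded ℂ) atTop := by
      apply tendsto_atTop_add_const_right
      exact tendsto_norm_cobounded_atTop.comp tendsto_snd
    refine tendsto_atTop_mono' _ ?_ h2
    have h3 : ∀ᶠ q : ℝ × ℂ in 𝓟 (Icc 0 T) ×ˢ Bornology.cobounded ℂ, q.1 ∈ Icc 0 T :=
      tendsto_fst.eventually (eventually_mem_set.2 (mem_principal_self _))
    filter_upwards [h3] with q hq
    have h4 : ‖q.2‖ ≤ ‖q.2 + (√q.1 : ℂ) * u‖ + ‖(√q.1 : ℂ) * u‖ := by
      have : q.2 = (q.2 + (√q.1 : ℂ) * u) - (√q.1 : ℂ) * u := by ring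
      calc ‖q.2‖ = ‖(q.2 + (√q.1 : ℂ) * u) - (√q.1 : ℂ) * u‖ := by rw [← this]
        _ ≤ _ := norm_sub_le _ _
    have h5 : ‖(√q.1 : ℂ) * u‖ ≤ √T * ‖u‖ := by
      rw [norm_mul, Complex.norm_real, Real.norm_eq_abs, abs_of_nonneg (Real.sqrt_nonneg _)]
      exact mul_le_mul_of_nonneg_right (Real.sqrt_le_sqrt hq.2) (norm_nonneg _)
    linarith

theorem decay {f : ℂ → ℝ} {B : ℝ} (hf : Continuous f) (hB : ∀ w, |f w| ≤ B)
    (h0 : Tendsto f (cocompact ℂ) (𝓝 0)) (T ε : ℝ) (hε : 0 < ε) :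
    ∃ R : ℝ, ∀ t z, 0 < t → t ≤ T → R ≤ ‖z‖ → |hh f t z| ≤ ε := by
  have h1 := (kk_decay hf hB h0 T).eventually (Metric.ball_mem_nhds (0 : ℝ) hε)
  rw [eventually_prod_iff] at h1
  obtain ⟨pa, ha, pb, hb, h⟩ := h1
  rw [eventually_principal] at ha
  rw [← comap_norm_atTop, eventually_comap, eventually_atTop] at hb
  obtain ⟨R, hR⟩ := hb
  refine ⟨R, fun t z ht hT hz => ?_⟩
  have := h (ha t ⟨ht.le, hT⟩) (hR _ hz z rfl)
  rw [Real.dist_eq, sub_zero] at this
  rw [hh_eq ht]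
  exact this.le

end Pool.Agent.N689.QD
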