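import Pool.Agent.N275.QD.Def
import Pool.Agent.N689.QD.HE

set_option autoImplicit false

/-!
# The heat extension of a bounded function: the statement S_HE
-/

namespace Pool.Agent.N689.QD

open MeasureTheory Set Filter Topology Complex
open Pool.Agent.N275.QD (he S_HE)

theorem he_eq (f : ℂ → ℝ) : he f = hh f := rfl

/-- HE -/
theorem S_HE_proof : S_HE := by
  intro f B hf hB
  rw [he_eq]
  exact ⟨fun t z ht => heat hf hB ht z, fun t z ht => bound hB ht z, cont hf hB,
    fun hc h0 => ⟨ext_cont hc hB, fun T ε hε => decay hc hB h0 T ε hε⟩⟩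

end Pool.Agent.N689.QD
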