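import Pool.Agent.N275.QD.Ana
import Pool.Agent.N689.QD.HE

set_option autoImplicit false

/-!
# Comparison of heat extensions with Dirichlet solutions
-/

namespace Pool.Agent.N689.QD

open MeasureTheory Set Filter Topology Complex
open Pool.Agent.N275.QD (D2 Heat S_MP)
open scoped Real

/-! ## The heat equation is linear -/

theorem D2_sub {f g : ℝ → ℝ} {a b : ℝ} (hf : D2 f a) (hg : D2 g b) :
    D2 (fun x => f x - g x) (a - b) := by
  obtain ⟨f', h1, h2⟩ := hf
  obtain ⟨g', h3, h4⟩ := hg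
  refine ⟨fun x => f' x - g' x, ?_, h2.sub h4⟩
  filter_upwards [h1, h3] with x hx hy using hx.sub hy

theorem D2_add_const {f : ℝ → ℝ} {a : ℝ} (hf : D2 f a) (c : ℝ) : D2 (fun x => f x + c) a := by
  obtain ⟨f', h1, h2⟩ := hf
  refine ⟨f', ?_, h2⟩
  filter_upwards [h1] with x hx using hx.add_const c

theorem Heat_sub {u v : ℝ → ℂ → ℝ} {t : ℝ} {z : ℂ} (hu : Heat u t z) (hv : Heat v t z) :
    Heat (fun t z => u t z - v t z) t z := by
  obtain ⟨a, b, h1, h2, h3⟩ := hu
  obtain ⟨a', b', h1', h2', h3'⟩ := hv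
  exact ⟨a - a', b - b', D2_sub h1 h1', D2_sub h2 h2', (h3.sub h3').congr_deriv (by ring)⟩

theorem Heat_add_const {u : ℝ → ℂ → ℝ} {t : ℝ} {z : ℂ} (hu : Heat u t z) (c : ℝ) :
    Heat (fun t z => u t z + c) t z := by
  obtain ⟨a, b, h1, h2, h3⟩ := hu
  exact ⟨a, b, D2_add_const h1 c, D2_add_const h2 c, h3.add_const c⟩

theorem Heat_shift {u : ℝ → ℂ → ℝ} {t₀ t : ℝ} {z : ℂ} (hu : Heat u (t₀ + t) z) :
    Heat (fun t z => u (t₀ + t) z) t z := by
  obtain ⟨a, b, h1, h2, h3⟩ := hu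
  exact ⟨a, b, h1, h2, h3.comp_const_add t₀ t⟩

/-! ## Gaussian estimates -/

theorem gg_le {t : ℝ} (ht : 0 < t) (z : ℂ) : gg t z ≤ 1 / (4 * π * t) := by
  unfold gg
  apply div_le_div_of_nonneg_right _ (by positivity)
  rw [Real.exp_le_one_iff]
  have : 0 ≤ ‖z‖ ^ 2 / (4 * t) := by positivity
  linarith

theorem gg_mul_le {t : ℝ} (ht : 0 < t) (z : ℂ) : gg t z * ‖z‖ ^ 2 ≤ 1 := by
  unfold gg
  set r := ‖z‖ ^ 2 / (4 * t) with hr
  have h1 : r * Real.exp (-r) ≤ 1 := by
    rw [Real.exp_neg, ← div_eq_mul_inv, div_le_one (Real.exp_pos _)]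
    linarith [Real.add_one_le_exp r]
  have h2 : ‖z‖ ^ 2 = 4 * t * r := by rw [hr]; field_simp
  have h3 : Real.exp (-r) / (4 * π * t) * ‖z‖ ^ 2 = r * Real.exp (-r) / π := by
    rw [h2]; field_simp
  rw [h3, div_le_one Real.pi_pos]
  linarith [Real.pi_gt_three]

theorem gg_far (b : ℂ) {ε : ℝ} (hε : 0 < ε) :
    ∃ R : ℝ, ∀ t z, 0 < t → R ≤ ‖z‖ → gg t (b - z) ≤ ε := by
  refine ⟨‖b‖ + (1 / ε + 1), fun t z ht hz => ?_⟩
  have h1 : 1 / ε + 1 ≤ ‖b - z‖ := by
    have : ‖z‖ ≤ ‖b - z‖ + ‖b‖ := by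
      have e : z = b - (b - z) := by ring
      calc ‖z‖ = ‖b - (b - z)‖ := by rw [← e]
        _ ≤ ‖b‖ + ‖b - z‖ := norm_sub_le _ _
        _ = _ := add_comm _ _
    linarith
  have h0 : 0 < 1 / ε := by positivity
  have h2 : 1 / ε ≤ ‖b - z‖ ^ 2 := by nlinarith
  have h3 := gg_mul_le ht (b - z)
  have h4 := gg_pos ht (b - z)
  have h5 : gg t (b - z) * (1 / ε) ≤ 1 := (mul_le_mul_of_nonneg_left h2 h4.le).trans h3
  rw [mul_one_div, div_le_one hε] at h5
  exact h5

/-- the mass of the Gaussian outside a disc -/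
theorem tail {t r : ℝ} (ht : 0 < t) (hr : 0 < r) :
    ∫ u : ℂ, {u : ℂ | r ≤ ‖u‖}.indicator (gg t) u = Real.exp (-(r ^ 2 / (4 * t))) := by
  have e1 : (fun u : ℂ => {u : ℂ | r ≤ ‖u‖}.indicator (gg t) u) = fun u : ℂ =>
      (Ici r).indicator (fun y : ℝ => Real.exp (-(y ^ 2 / (4 * t))) / (4 * π * t)) ‖u‖ := by
    funext u
    simp only [indicator, mem_Ici, mem_ofPred_eq, gg]
  rw [e1, integral_fun_norm_addHaar (volume : Measure ℂ)
    ((Ici r).indicator (fun y : ℝ => Real.exp (-(y ^ 2 / (4 * t))) / (4 * π * t)))]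
  have e2 : ∫ y in Ioi (0 : ℝ), y ^ (Module.finrank ℝ ℂ - 1) •
      (Ici r).indicator (fun y : ℝ => Real.exp (-(y ^ 2 / (4 * t))) / (4 * π * t)) y =
      (4 * π * t)⁻¹ * (2 * t * Real.exp (-(r ^ 2 / (4 * t)))) := by
    have e3 : (fun y : ℝ => y ^ (Module.finrank ℝ ℂ - 1) •
      (Ici r).indicator (fun y : ℝ => Real.exp (-(y ^ 2 / (4 * t))) / (4 * π * t)) y) =
      fun y : ℝ => (Ici r).indicator
        (fun y : ℝ => (4 * π * t)⁻¹ * (y * Real.exp (-(y ^ 2 / (4 * t))))) y := by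
      funext y
      rw [Complex.finrank_real_complex]
      by_cases h : y ∈ Ici r
      · rw [indicator_of_mem h, indicator_of_mem h]
        simp only [smul_eq_mul]
        norm_num
        ring
      · rw [indicator_of_notMem h, indicator_of_notMem h]
        simp
    rw [e3, setIntegral_indicator measurableSet_Ici]
    have e4 : Ioi (0 : ℝ) ∩ Ici r = Ici r := by
      ext y
      simp only [mem_inter_iff, mem_Ioi, mem_Ici]
      constructor
      · exact fun h => h.2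
      · exact fun h => ⟨hr.trans_le h, h⟩
    rw [e4, integral_Ici_eq_integral_Ioi, integral_const_mul]
    congr 1
    have h := integral_Ioi_of_hasDerivAt_of_nonneg (a := r) (l := 0)
      (g := fun y : ℝ => -(2 * t) * Real.exp (-(y ^ 2 / (4 * t))))
      (g' := fun y : ℝ => y * Real.exp (-(y ^ 2 / (4 * t)))) ?_ ?_ ?_ ?_
    · rw [h]; ring
    · apply Continuous.continuousWithinAt
      fun_prop
    · intro y _
      have h1 : HasDerivAt (fun y : ℝ => -(y ^ 2 / (4 * t))) (-(2 * y / (4 * t))) y := by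
        have := ((hasDerivAt_pow 2 y).div_const (4 * t)).neg
        refine this.congr_deriv ?_
        norm_num
      refine (h1.exp.const_mul (-(2 * t))).congr_deriv ?_
      field_simp
      ring
    · intro y hy
      have : 0 < y := hr.trans hy
      positivity
    · have h2 : Tendsto (fun y : ℝ => y ^ 2 / (4 * t)) atTop atTop :=
        (tendsto_pow_atTop (by norm_num)).atTop_div_const (by positivity)
      have h3 : Tendsto (fun y : ℝ => Real.exp (-(y ^ 2 / (4 * t)))) atTop (𝓝 0) :=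
        Real.tendsto_exp_neg_atTop_nhds_zero.comp h2
      simpa using h3.const_mul (-(2 * t))
  rw [e2, Complex.finrank_real_complex]
  have e5 : (volume : Measure ℂ).real (Metric.ball 0 1) = π := by
    rw [Measure.real, Complex.volume_ball]
    simp
  rw [e5]
  simp only [nsmul_eq_mul, smul_eq_mul]
  push_cast
  field_simp
  ring

/-! ## The comparison principle -/

theorem cmp (hMP : S_MP) {Ω : Set ℂ} (hΩ : IsOpen Ω) {T : ℝ} {V W : ℝ → ℂ → ℝ}
    (hc : ContinuousOn (fun q : ℝ × ℂ => V q.1 q.2) (Ioi 0 ×ˢ univ))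
    (hW : ContinuousOn (fun q : ℝ × ℂ => W q.1 q.2) (Ici 0 ×ˢ univ))
    (hVW : ∀ t z, 0 < t → W t z ≤ V t z) (hW0 : ∀ z, 0 ≤ W 0 z)
    (hh : ∀ t z, 0 < t → t ≤ T → z ∈ Ω → Heat V t z)
    (hb : ∀ t z, 0 < t → t ≤ T → z ∉ Ω → 0 ≤ V t z)
    (hd : ∀ ε : ℝ, 0 < ε → ∃ R : ℝ, ∀ t z, 0 < t → t ≤ T → R ≤ ‖z‖ → -ε ≤ V t z) :
    ∀ t z, 0 < t → t ≤ T → z ∈ Ω → 0 ≤ V t z := by
  refine hMP Ω T V hΩ (hc.mono ?_) hh ?_
  · exact prod_mono (fun t ht => ht.1) (subset_univ _)
  intro ε hε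
  obtain ⟨R, hR⟩ := hd ε hε
  set C : Set (ℝ × ℂ) := Icc 0 T ×ˢ Metric.closedBall 0 R with hC
  have hCc : IsCompact C := isCompact_Icc.prod (isCompact_closedBall _ _)
  set A : Set (ℝ × ℂ) := C ∩ (fun q : ℝ × ℂ => W q.1 q.2) ⁻¹' Iic (-ε) with hA
  have hAc : IsCompact A := by
    refine hCc.of_isClosed_subset ?_ inter_subset_left
    refine ContinuousOn.preimage_isClosed_of_isClosed (hW.mono ?_) hCc.isClosed isClosed_Iic
    exact prod_mono (fun t ht => ht.1) (subset_univ _)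
  have hA0 : A ⊆ Ioi 0 ×ˢ univ := by
    rintro ⟨t, z⟩ ⟨⟨h1, _⟩, h2⟩
    simp only [mem_preimage, mem_Iic] at h2
    refine ⟨?_, mem_univ _⟩
    rcases h1.1.eq_or_lt with h | h
    · simp only at h
      rw [← h] at h2
      have := hW0 z
      linarith
    · exact h
  set K : Set (ℝ × ℂ) := A ∩ (fun q : ℝ × ℂ => V q.1 q.2) ⁻¹' Iic (-ε) with hK
  have hKc : IsCompact K := by
    refine hAc.of_isClosed_subset ?_ inter_subset_left
    exact ContinuousOn.preimage_isClosed_of_isClosed (hc.mono hA0) hAc.isClosed isClosed_Iic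
  refine ⟨K, hKc, ?_, ?_⟩
  · rintro ⟨t, z⟩ ⟨h1, h2⟩
    have h3 : 0 < t := (hA0 h1).1
    have h4 : t ≤ T := h1.1.1.2
    simp only [mem_preimage, mem_Iic] at h2
    refine ⟨⟨h3, h4⟩, ?_⟩
    by_contra hz
    have := hb t z h3 h4 hz
    linarith
  · intro t z ht hT _ hn
    by_cases hz : R ≤ ‖z‖
    · exact hR t z ht hT hz
    push Not at hz
    by_contra hlt
    push Not at hlt
    apply hn
    refine ⟨⟨⟨⟨ht.le, hT⟩, ?_⟩, ?_⟩, ?_⟩
    · simpa using hz.le
    · exact (hVW t z ht).trans hlt.le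
    · exact hlt.le

/-- a Dirichlet heat kernel of `Ω` with pole `b` -/
structure Dr (Ω : Set ℂ) (b : ℂ) (p : ℝ → ℂ → ℝ) : Prop where
  heat : ∀ t z, 0 < t → z ∈ Ω → Heat p t z
  nonneg : ∀ t z, 0 < t → 0 ≤ p t z
  le : ∀ t z, 0 < t → p t z ≤ gg t (b - z)
  zero : ∀ t z, 0 < t → z ∉ Ω → p t z = 0
  cont : ContinuousOn (fun q : ℝ × ℂ => p q.1 q.2) (Ioi 0 ×ˢ univ)

section

variable {Ω : Set ℂ} {b : ℂ} {p : ℝ → ℂ → ℝ}

theorem Dr.cont1 (h : Dr Ω b p) {t : ℝ} (ht : 0 < t) : Continuous (p t) :=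
  h.cont.comp_continuous (f := fun z : ℂ => (t, z)) (by fun_prop) fun z => ⟨ht, mem_univ _⟩

theorem Dr.abs_le (h : Dr Ω b p) {t : ℝ} (ht : 0 < t) (z : ℂ) : |p t z| ≤ 1 / (4 * π * t) := by
  rw [abs_of_nonneg (h.nonneg t z ht)]
  exact (h.le t z ht).trans (gg_le ht _)

theorem Dr.lim (h : Dr Ω b p) {t : ℝ} (ht : 0 < t) : Tendsto (p t) (cocompact ℂ) (𝓝 0) := by
  rw [← Metric.cobounded_eq_cocompact, Metric.tendsto_nhds]
  intro ε hε
  obtain ⟨R, hR⟩ := gg_far b (half_pos hε)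
  rw [← comap_norm_atTop]
  have : ∀ᶠ x : ℝ in atTop, R ≤ x := eventually_ge_atTop R
  filter_upwards [tendsto_comap.eventually this] with z hz
  rw [Real.dist_eq, sub_zero, abs_of_nonneg (h.nonneg t z ht)]
  have := (h.le t z ht).trans (hR t z ht hz)
  linarith

theorem Dr.shift_cont (h : Dr Ω b p) {t₀ : ℝ} (ht₀ : 0 < t₀) :
    ContinuousOn (fun q : ℝ × ℂ => p (t₀ + q.1) q.2) (Ici 0 ×ˢ univ) := by
  refine h.cont.comp (f := fun q : ℝ × ℂ => (t₀ + q.1, q.2)) (by fun_prop) ?_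
  rintro ⟨t, z⟩ ⟨ht, -⟩
  simp only [mem_Ici] at ht
  exact ⟨by simp only [mem_Ioi]; linarith, mem_univ _⟩

theorem Ioi_Ici : (Ioi (0 : ℝ)) ×ˢ (univ : Set ℂ) ⊆ Ici 0 ×ˢ univ :=
  prod_mono Ioi_subset_Ici_self (subset_univ _)

/-- LO, one step -/
theorem lo_core (hMP : S_MP) (hΩ : IsOpen Ω) (h : Dr Ω b p) {t₀ s : ℝ} (ht₀ : 0 < t₀) (hs : 0 < s)
    {z : ℂ} (hz : z ∈ Ω) : p (t₀ + s) z ≤ hh (p t₀) s z := by
  have hm : Measurable (p t₀) := (h.cont1 ht₀).measurable
  have hB := h.abs_le ht₀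
  have hnn : ∀ t z, 0 < t → 0 ≤ hh (p t₀) t z := by
    intro t z ht
    exact integral_nonneg fun w => mul_nonneg (gg_pos ht _).le (h.nonneg t₀ w ht₀)
  have key := cmp hMP hΩ (T := s) (V := fun t z => hh (p t₀) t z - p (t₀ + t) z)
    (W := fun t z => (if 0 < t then hh (p t₀) t z else p t₀ z) - p (t₀ + t) z)
    ((cont hm hB).sub ((h.shift_cont ht₀).mono Ioi_Ici))
    ((ext_cont (h.cont1 ht₀) hB).sub (h.shift_cont ht₀))
    (fun t z ht => by simp [ht])
    (fun z => by simp)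
    (fun t z ht _ hz => Heat_sub (heat hm hB ht z) (Heat_shift (h.heat _ z (by linarith) hz)))
    (fun t z ht _ hz => by
      rw [h.zero (t₀ + t) z (by linarith) hz, sub_zero]
      exact hnn t z ht)
    (fun ε hε => by
      obtain ⟨R, hR⟩ := gg_far b hε
      refine ⟨R, fun t z ht _ hz => ?_⟩
      have h1 := (h.le (t₀ + t) z (by linarith)).trans (hR (t₀ + t) z (by linarith) hz)
      have h2 := hnn t z ht
      linarith)
    s z hs le_rfl hz
  linarith

/-- UP, one step -/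
theorem up_core (hMP : S_MP) (hΩ : IsOpen Ω) (h : Dr Ω b p) {E : Set ℂ} (hE : MeasurableSet E)
    {r : ℝ} (hr : 0 < r) (hd : ∀ z ∈ E, ∀ w, w ∉ Ω → r ≤ dist z w) {t₀ s : ℝ} (hs : 0 < s)
    (hst : s ≤ t₀) {z : ℂ} (hz : z ∈ Ω) :
    hh (E.indicator (p t₀)) s z ≤
      p (t₀ + s) z + Real.exp (-(r ^ 2 / (4 * s))) / (4 * π * s) := by
  have ht₀ : 0 < t₀ := hs.trans_le hst
  have hm : Measurable (p t₀) := (h.cont1 ht₀).measurable
  have hB := h.abs_le ht₀
  have hm' : Measurable (E.indicator (p t₀)) := hm.indicator hE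
  have hB' : ∀ w, |E.indicator (p t₀) w| ≤ 1 / (4 * π * t₀) := by
    intro w
    by_cases hw : w ∈ E
    · rw [indicator_of_mem hw]; exact hB w
    · rw [indicator_of_notMem hw, abs_zero]; positivity
  have hi : ∀ t z, 0 < t → Integrable (fun w => gg t (w - z) * p t₀ w) := by
    intro t z ht
    refine ((integrable_gg_sub ht z).mul_const (1 / (4 * π * t₀))).mono'
      ((gg_meas t z).mul hm).aestronglyMeasurable (Eventually.of_forall fun w => ?_)
    rw [Real.norm_eq_abs, abs_mul, abs_of_pos (gg_pos ht _)]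
    exact mul_le_mul_of_nonneg_left (hB w) (gg_pos ht _).le
  have hi' : ∀ t z, 0 < t → Integrable (fun w => gg t (w - z) * E.indicator (p t₀) w) := by
    intro t z ht
    refine ((integrable_gg_sub ht z).mul_const (1 / (4 * π * t₀))).mono'
      ((gg_meas t z).mul hm').aestronglyMeasurable (Eventually.of_forall fun w => ?_)
    rw [Real.norm_eq_abs, abs_mul, abs_of_pos (gg_pos ht _)]
    exact mul_le_mul_of_nonneg_left (hB' w) (gg_pos ht _).le
  have hle : ∀ t z, 0 < t → hh (E.indicator (p t₀)) t z ≤ hh (p t₀) t z := by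
    intro t z ht
    refine integral_mono (hi' t z ht) (hi t z ht) fun w => ?_
    refine mul_le_mul_of_nonneg_left ?_ (gg_pos ht _).le
    by_cases hw : w ∈ E
    · rw [indicator_of_mem hw]
    · rw [indicator_of_notMem hw]; exact h.nonneg t₀ w ht₀
  set E₀ := Real.exp (-(r ^ 2 / (4 * s))) / (4 * π * s) with hE₀
  have hE₀p : 0 < E₀ := by positivity
  have key := cmp hMP hΩ (T := s)
    (V := fun t z => (p (t₀ + t) z + E₀) - hh (E.indicator (p t₀)) t z)
    (W := fun t z => (p (t₀ + t) z + E₀) - (if 0 < t then hh (p t₀) t z else p t₀ z))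
    ((((h.shift_cont ht₀).mono Ioi_Ici).add continuousOn_const).sub (cont hm' hB'))
    (((h.shift_cont ht₀).add continuousOn_const).sub (ext_cont (h.cont1 ht₀) hB))
    (fun t z ht => by
      simp only [ht, if_true]
      linarith [hle t z ht])
    (fun z => by simp [hE₀p.le])
    (fun t z ht _ hz => Heat_sub (Heat_add_const (Heat_shift (h.heat _ z (by linarith) hz)) E₀)
      (heat hm' hB' ht z))
    (fun t z ht hts hz => by
      rw [h.zero (t₀ + t) z (by linarith) hz, zero_add, sub_nonneg]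
      have h1 : hh (E.indicator (p t₀)) t z ≤
          ∫ w, {u : ℂ | r ≤ ‖u‖}.indicator (gg t) (w - z) * (1 / (4 * π * t₀)) := by
        refine integral_mono (hi' t z ht) ?_ fun w => ?_
        · apply Integrable.mul_const
          apply Integrable.comp_sub_right (f := {u : ℂ | r ≤ ‖u‖}.indicator (gg t))
          exact (integrable_gg ht).indicator (isClosed_le continuous_const continuous_norm).measurableSet
        · by_cases hw : w ∈ E
          · have h2 : r ≤ ‖w - z‖ := by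
              have := hd w hw z hz
              rwa [dist_eq_norm] at this
            have h3 : w - z ∈ {u : ℂ | r ≤ ‖u‖} := h2
            simp only
            rw [indicator_of_mem hw, indicator_of_mem h3]
            exact mul_le_mul_of_nonneg_left ((le_abs_self _).trans (hB w)) (gg_pos ht _).le
          · simp only
            rw [indicator_of_notMem hw, mul_zero]
            refine mul_nonneg (indicator_nonneg (fun u _ => (gg_pos ht u).le) _) (by positivity)
      have h2 : ∫ w, {u : ℂ | r ≤ ‖u‖}.indicator (gg t) (w - z) * (1 / (4 * π * t₀)) =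
          Real.exp (-(r ^ 2 / (4 * t))) * (1 / (4 * π * t₀)) := by
        rw [integral_mul_const, integral_sub_right_eq_self
          (fun w => {u : ℂ | r ≤ ‖u‖}.indicator (gg t) w) z, tail ht hr]
      rw [h2] at h1
      refine h1.trans ?_
      rw [hE₀, mul_one_div]
      apply div_le_div₀ (Real.exp_pos _).le _ (by positivity) _
      · rw [Real.exp_le_exp, neg_le_neg_iff]
        apply div_le_div_of_nonneg_left (by positivity) (by positivity)
        linarith
      · nlinarith [Real.pi_pos])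
    (fun ε hε => by
      obtain ⟨R, hR⟩ := decay (h.cont1 ht₀) hB (h.lim ht₀) s ε hε
      refine ⟨R, fun t z ht hts hz => ?_⟩
      have h1 := hle t z ht
      have h2 := (le_abs_self _).trans (hR t z ht hts hz)
      have h3 := h.nonneg (t₀ + t) z (by linarith)
      linarith)
    s z hs le_rfl hz
  linarith

end

end Pool.Agent.N689.QD
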