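import Pool.Agent.N275.QD.Def
import Pool.Agent.N689.QD.HE2
import Pool.Agent.N689.QD.LU

set_option autoImplicit false

/-!
# Killed chains and Dirichlet solutions: the statements S_LO and S_UP
-/

namespace Pool.Agent.N689.QD

open MeasureTheory Set Filter Topology Complex
open Pool.Agent.N275.QD (he S_HE S_MP S_LO S_UP Dir)
open Pool.Agent.R225.LP (gk ks)
open scoped Real ENNReal

theorem toDr {Ω : Set ℂ} {b : ℂ} {p : ℝ → ℂ → ℝ} (h : Dir Ω b p) : Dr Ω b p :=
  ⟨h.heat, h.nonneg, h.le, h.zero, h.cont⟩

theorem hi_int {Ω : Set ℂ} {b : ℂ} {p : ℝ → ℂ → ℝ} (h : Dr Ω b p) {t₀ t : ℝ} (ht₀ : 0 < t₀)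
    (ht : 0 < t) (z : ℂ) : Integrable (fun w => gg t (w - z) * p t₀ w) := by
  refine ((integrable_gg_sub ht z).mul_const (1 / (4 * π * t₀))).mono'
    ((gg_meas t z).mul (h.cont1 ht₀).measurable).aestronglyMeasurable
    (Eventually.of_forall fun w => ?_)
  rw [Real.norm_eq_abs, abs_mul, abs_of_pos (gg_pos ht _)]
  exact mul_le_mul_of_nonneg_left (h.abs_le ht₀ w) (gg_pos ht _).le

/-- LO -/
theorem lo (hMP : S_MP) (_ : S_HE) : S_LO := by
  intro Ω b p hΩ hD s m z hs hz
  have h := toDr hD
  induction m generalizing z with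
  | zero =>
    have e : ((0 : ℕ) + 1 : ℝ) * s = s := by simp
    rw [e]
    exact ENNReal.ofReal_le_ofReal (h.le s z hs)
  | succ m ih =>
    have ht₀ : 0 < ((m : ℝ) + 1) * s := by positivity
    have e : (((m + 1 : ℕ) : ℝ) + 1) * s = ((m : ℝ) + 1) * s + s := by push_cast; ring
    rw [e]
    calc ENNReal.ofReal (p (((m : ℝ) + 1) * s + s) z)
        ≤ ENNReal.ofReal (hh (p (((m : ℝ) + 1) * s)) s z) :=
          ENNReal.ofReal_le_ofReal (lo_core hMP hΩ h ht₀ hs hz)
      _ = ∫⁻ w, ENNReal.ofReal (gg s (w - z) * p (((m : ℝ) + 1) * s) w) :=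
          ofReal_integral_eq_lintegral_ofReal (hi_int h ht₀ hs z)
            (Eventually.of_forall fun w => mul_nonneg (gg_pos hs _).le (h.nonneg _ w ht₀))
      _ ≤ ∫⁻ w in Ω, ENNReal.ofReal (gk s (w - z)) * ks Ω s m w b := by
          rw [← lintegral_indicator hΩ.measurableSet]
          refine lintegral_mono fun w => ?_
          by_cases hw : w ∈ Ω
          · rw [indicator_of_mem hw, ENNReal.ofReal_mul (gg_pos hs _).le]
            exact mul_le_mul_right (ih w hw) _
          · rw [h.zero _ w ht₀ hw, mul_zero, ENNReal.ofReal_zero]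
            exact zero_le

/-- UP -/
theorem up (hMP : S_MP) (_ : S_HE) : S_UP := by
  intro Ω E b p r κ s hΩ hD hE hr hd hEΩ hs hκ hb m z hz
  have h := toDr hD
  set E₀ := Real.exp (-(r ^ 2 / (4 * s))) / (4 * π * s) with hE₀
  have hE₀p : 0 < E₀ := by positivity
  induction m generalizing z with
  | zero =>
    have e : ((0 : ℕ) + 1 : ℝ) * s = s := by simp
    rw [e, Nat.cast_zero, zero_mul, add_zero]
    exact ENNReal.ofReal_le_ofReal (hb z hz)
  | succ m ih =>
    set t₀ : ℝ := ((m : ℝ) + 1) * s with ht
    have ht₀ : 0 < t₀ := by positivity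
    have hst : s ≤ t₀ := by
      rw [ht]
      have : (0 : ℝ) ≤ (m : ℝ) * s := by positivity
      nlinarith
    have e : (((m + 1 : ℕ) : ℝ) + 1) * s = t₀ + s := by rw [ht]; push_cast; ring
    rw [e]
    have hk : 0 ≤ κ + m * E₀ := by positivity
    have hm' : Measurable (E.indicator (p t₀)) := (h.cont1 ht₀).measurable.indicator hE
    have hint : Integrable (fun w => gg s (w - z) * E.indicator (p t₀) w) := by
      refine (hi_int h ht₀ hs z).mono ((gg_meas s z).mul hm').aestronglyMeasurable
        (Eventually.of_forall fun w => ?_)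
      by_cases hw : w ∈ E
      · rw [indicator_of_mem hw]
      · rw [indicator_of_notMem hw, mul_zero, norm_zero]; exact norm_nonneg _
    have hpt : ∀ w, 0 ≤ E.indicator (p t₀) w := fun w =>
      indicator_nonneg (fun x _ => h.nonneg t₀ x ht₀) w
    calc ks E s (m + 1) z b
        = ∫⁻ w in E, ENNReal.ofReal (gk s (w - z)) * ks E s m w b := rfl
      _ ≤ ∫⁻ w, (ENNReal.ofReal (gg s (w - z) * E.indicator (p t₀) w) +
            ENNReal.ofReal (gg s (w - z)) * ENNReal.ofReal (κ + m * E₀)) := by
          rw [← lintegral_indicator hE]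
          refine lintegral_mono fun w => ?_
          by_cases hw : w ∈ E
          · rw [indicator_of_mem hw, indicator_of_mem hw, ENNReal.ofReal_mul (gg_pos hs _).le,
              ← mul_add, ← ENNReal.ofReal_add (h.nonneg _ w ht₀) hk]
            refine mul_le_mul_right ((ih w hw).trans (ENNReal.ofReal_le_ofReal ?_)) _
            linarith
          · rw [indicator_of_notMem hw]
            exact zero_le
      _ = ENNReal.ofReal (hh (E.indicator (p t₀)) s z) + ENNReal.ofReal (κ + m * E₀) := by
          have hmm : Measurable (fun w => ENNReal.ofReal (gg s (w - z) * E.indicator (p t₀) w)) :=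
            ((gg_meas s z).mul hm').ennreal_ofReal
          rw [lintegral_add_left hmm, lintegral_mul_const' _ _ ENNReal.ofReal_ne_top]
          congr 1
          · exact (ofReal_integral_eq_lintegral_ofReal hint
              (Eventually.of_forall fun w => mul_nonneg (gg_pos hs _).le (hpt w))).symm
          · rw [← ofReal_integral_eq_lintegral_ofReal (integrable_gg_sub hs z)
              (Eventually.of_forall fun w => (gg_pos hs _).le),
              integral_sub_right_eq_self (gg s) z, int_gg hs, ENNReal.ofReal_one, one_mul]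
      _ = ENNReal.ofReal (hh (E.indicator (p t₀)) s z + (κ + m * E₀)) := by
          rw [← ENNReal.ofReal_add _ hk]
          exact integral_nonneg fun w => mul_nonneg (gg_pos hs _).le (hpt w)
      _ ≤ ENNReal.ofReal (p (t₀ + s) z + κ + ((m + 1 : ℕ) : ℝ) * E₀) := by
          refine ENNReal.ofReal_le_ofReal ?_
          have := up_core hMP hΩ h hE hr hd hs hst (hEΩ hz)
          rw [← hE₀] at this
          push_cast
          linarith

end Pool.Agent.N689.QD
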